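import Pool.Agent.P8H87.ZE.VanB
import Pool.Agent.P8H83.ZE.StmV

/-!
# Project ZE, package VAN

The singular cohomology of a compact manifold vanishes above the dimension.
-/

set_option autoImplicit false

namespace Pool.Agent.P8H87.ZE

open Module

/-- **(VAN)** -/
theorem van : Pool.Agent.P8H83.ZE.S_VAN := by
  intro E _ _ _ M _ _ _ _ K _ n hn
  obtain ⟨k, rfl⟩ : ∃ k, n = k + 1 := ⟨n - 1, by omega⟩
  have hch : ∀ x : M, ∃ e : OpenPartialHomeomorph M (Fin (finrank ℝ E) → ℝ), x ∈ e.source := by
    intro x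
    let L : E ≃L[ℝ] (Fin (finrank ℝ E) → ℝ) :=
      (Module.finBasis ℝ E).equivFunL
    refine ⟨(chartAt E x).trans L.toHomeomorph.toOpenPartialHomeomorph, ?_⟩
    simp
  have hA : HA K (finrank ℝ E) (Set.univ : Set M) := HA_univ hch
  have hsub : Subsingleton (Pool.Agent.Helper381.SingularCohomology K M (k + 1)) := by
    have h1 : Pool.Agent.Helper381.cocycles K M (k + 1) ≤
        Pool.Agent.Helper381.coboundaries K M (k + 1) := by
      intro c hc
      have hc' : dl K (k + 1) c = 0 := hc
      obtain ⟨b, hb⟩ := exact_of_HA hA k (by omega) c hc'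
      exact ⟨b, hb⟩
    unfold Pool.Agent.Helper381.SingularCohomology
    rw [Submodule.Quotient.subsingleton_iff, Submodule.submoduleOf_eq_top]
    exact h1
  exact finrank_zero_of_subsingleton

end Pool.Agent.P8H87.ZE
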