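import Pool.Agent.Helper922.HB.Sc.Small
import Pool.Agent.Helper922.HB.Sc.Sing

/-!
# Project ZE, package VAN: germs of singular cochains near closed sets, any coefficient ring
-/

set_option autoImplicit false

namespace Pool.Agent.P8H87.ZE

open Set Topology
open Pool.Agent.Helper922.HB.Sc

variable {X : Type} [TopologicalSpace X] (R : Type) [CommRing R]

/-- the coboundary -/
noncomputable abbrev dl (k : ℕ) : (Sing X k → R) →ₗ[R] (Sing X (k + 1) → R) :=
  altd R (sface (X := X)) k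

theorem dl_dl (k : ℕ) (c : Sing X k → R) : dl R (k + 1) (dl R k c) = 0 :=
  altd_altd (sface (X := X)) (fun n i j σ h => sface_sface n i j σ h) k c

theorem rng_sface (k : ℕ) (i : Fin (k + 2)) (σ : Sing X (k + 1)) :
    range (sface k i σ) ⊆ range σ := by
  rintro _ ⟨x, rfl⟩
  exact ⟨_, rfl⟩

/-- cochains which vanish on all small simplices near every point of `A` -/
def N (k : ℕ) (A : Set X) : Submodule R (Sing X k → R) where
  carrier := {c | ∀ x ∈ A, ∃ U, IsOpen U ∧ x ∈ U ∧ ∀ s : Sing X k, range s ⊆ U → c s = 0}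
  zero_mem' := fun x _ => ⟨univ, isOpen_univ, mem_univ _, fun _ _ => rfl⟩
  add_mem' := by
    intro a b ha hb x hx
    obtain ⟨U, hU, hxU, h1⟩ := ha x hx
    obtain ⟨V, hV, hxV, h2⟩ := hb x hx
    refine ⟨U ∩ V, hU.inter hV, ⟨hxU, hxV⟩, fun s hs => ?_⟩
    rw [Pi.add_apply, h1 s (hs.trans inter_subset_left), h2 s (hs.trans inter_subset_right),
      add_zero]
  smul_mem' := by
    intro r a ha x hx
    obtain ⟨U, hU, hxU, h1⟩ := ha x hx
    refine ⟨U, hU, hxU, fun s hs => ?_⟩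
    rw [Pi.smul_apply, h1 s hs, smul_zero]

variable {R}

theorem N_mono {k : ℕ} {A B : Set X} (h : A ⊆ B) : N R k B ≤ N R k A :=
  fun _ hc x hx => hc x (h hx)

theorem N_empty (k : ℕ) (c : Sing X k → R) : c ∈ N R k ∅ := fun x hx => absurd hx (notMem_empty x)

theorem N_union {k : ℕ} {A B : Set X} {c : Sing X k → R} (h1 : c ∈ N R k A) (h2 : c ∈ N R k B) :
    c ∈ N R k (A ∪ B) := by
  rintro x (hx | hx)
  · exact h1 x hx
  · exact h2 x hx

theorem dl_N {k : ℕ} {A : Set X} {c : Sing X k → R} (h : c ∈ N R k A) :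
    dl R k c ∈ N R (k + 1) A := by
  intro x hx
  obtain ⟨U, hU, hxU, h1⟩ := h x hx
  refine ⟨U, hU, hxU, fun s hs => ?_⟩
  rw [altd_apply]
  refine Finset.sum_eq_zero fun i _ => ?_
  rw [h1 _ ((rng_sface k i s).trans hs), mul_zero]

theorem N_nhd {k : ℕ} {A : Set X} {c : Sing X k → R} (h : c ∈ N R k A) :
    ∃ U, IsOpen U ∧ A ⊆ U ∧ c ∈ N R k U := by
  refine ⟨⋃ (V : Set X) (_ : IsOpen V ∧ ∀ s : Sing X k, range s ⊆ V → c s = 0), V, ?_, ?_, ?_⟩
  · exact isOpen_iUnion fun V => isOpen_iUnion fun hV => hV.1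
  · intro x hx
    obtain ⟨U, hU, hxU, h1⟩ := h x hx
    simp only [mem_iUnion]
    exact ⟨U, ⟨hU, h1⟩, hxU⟩
  · intro x hx
    simp only [mem_iUnion] at hx
    obtain ⟨V, ⟨hV, h1⟩, hxV⟩ := hx
    exact ⟨V, hV, hxV, h1⟩

/-- splitting of a cochain which is zero near `A ∩ B` -/
theorem N_split [NormalSpace X] {k : ℕ} {A B : Set X} (hA : IsClosed A) (hB : IsClosed B)
    {c : Sing X k → R} (hc : c ∈ N R k (A ∩ B)) :
    ∃ c₁ ∈ N R k A, ∃ c₂ ∈ N R k B, c = c₁ + c₂ := by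
  classical
  obtain ⟨W, hW, hABW, hcW⟩ := N_nhd hc
  have hd : Disjoint (A \ W) (B \ W) := by
    rw [Set.disjoint_left]
    rintro x ⟨h1, h2⟩ ⟨h3, _⟩
    exact h2 (hABW ⟨h1, h3⟩)
  obtain ⟨G, H, hG, hH, hAG, hBH, hdis⟩ := normal_separation (hA.sdiff hW) (hB.sdiff hW) hd
  refine ⟨fun s => if s (vert k 0) ∈ H then c s else 0, ?_,
    fun s => if s (vert k 0) ∈ H then 0 else c s, ?_, ?_⟩
  · intro x hx
    by_cases hxW : x ∈ W
    · obtain ⟨U, hU, hxU, h⟩ := hcW x hxW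
      refine ⟨U, hU, hxU, fun s hs => ?_⟩
      change (if s (vert k 0) ∈ H then c s else 0) = 0
      rw [h s hs, ite_self]
    · refine ⟨G, hG, hAG ⟨hx, hxW⟩, fun s hs => ?_⟩
      have h3 : s (vert k 0) ∉ H := fun h4 => disjoint_left.mp hdis (hs ⟨_, rfl⟩) h4
      change (if s (vert k 0) ∈ H then c s else 0) = 0
      rw [if_neg h3]
  · intro x hx
    by_cases hxW : x ∈ W
    · obtain ⟨U, hU, hxU, h⟩ := hcW x hxW
      refine ⟨U, hU, hxU, fun s hs => ?_⟩
      change (if s (vert k 0) ∈ H then 0 else c s) = 0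
      rw [h s hs, ite_self]
    · refine ⟨H, hH, hBH ⟨hx, hxW⟩, fun s hs => ?_⟩
      have h3 : s (vert k 0) ∈ H := hs ⟨_, rfl⟩
      change (if s (vert k 0) ∈ H then 0 else c s) = 0
      rw [if_pos h3]
  · funext s
    change c s = (if s (vert k 0) ∈ H then c s else 0) + (if s (vert k 0) ∈ H then 0 else c s)
    by_cases h3 : s (vert k 0) ∈ H
    · rw [if_pos h3, if_pos h3, add_zero]
    · rw [if_neg h3, if_neg h3, zero_add]

/-! ### exactness -/

/-- `c` is exact near `A` -/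
def Ex (k : ℕ) (A : Set X) (c : Sing X (k + 1) → R) : Prop :=
  ∃ b : Sing X k → R, c - dl R k b ∈ N R (k + 1) A

theorem Ex.mono {k : ℕ} {A B : Set X} {c : Sing X (k + 1) → R} (h : Ex k A c) (hB : B ⊆ A) :
    Ex k B c := by
  obtain ⟨b, hb⟩ := h
  exact ⟨b, N_mono hB hb⟩

/-- Mayer–Vietoris -/
theorem cut [NormalSpace X] {k : ℕ} {A B : Set X} (hA : IsClosed A) (hB : IsClosed B)
    (hAB : ∀ θ : Sing X k → R, dl R k θ ∈ N R (k + 1) (A ∩ B) →
      ∃ w : Sing X k → R, dl R k w = 0 ∧ θ - w ∈ N R k (A ∩ B))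
    {c : Sing X (k + 1) → R} (h1 : Ex k A c) (h2 : Ex k B c) : Ex k (A ∪ B) c := by
  obtain ⟨b1, hb1⟩ := h1
  obtain ⟨b2, hb2⟩ := h2
  have h3 : dl R k (b1 - b2) ∈ N R (k + 1) (A ∩ B) := by
    have e : dl R k (b1 - b2) = (c - dl R k b2) - (c - dl R k b1) := by
      rw [map_sub]; abel
    rw [e]
    exact sub_mem (N_mono inter_subset_right hb2) (N_mono inter_subset_left hb1)
  obtain ⟨w, hw, hθ⟩ := hAB _ h3
  obtain ⟨n1, hn1, n2, hn2, he⟩ := N_split hA hB hθ
  refine ⟨b1 - n1, N_union ?_ ?_⟩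
  · have e : c - dl R k (b1 - n1) = (c - dl R k b1) + dl R k n1 := by
      rw [map_sub]; abel
    rw [e]
    exact add_mem hb1 (dl_N hn1)
  · have e2 : b1 - n1 = b2 + w + n2 := by
      have h7 : b1 - b2 - w - n1 = n2 := by rw [he]; abel
      rw [← h7]; abel
    have e : c - dl R k (b1 - n1) = (c - dl R k b2) - dl R k n2 := by
      rw [e2, map_add, map_add, hw]; abel
    rw [e]
    exact sub_mem hb2 (dl_N hn2)

/-- minimal closed sets on which a class is not exact -/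
theorem exists_min [CompactSpace X] {k : ℕ} {K : Set X} (hK : IsClosed K)
    {c : Sing X (k + 1) → R} (h : ¬ Ex k K c) : ∃ K0 ⊆ K, IsClosed K0 ∧ ¬ Ex k K0 c ∧
      ∀ K' ⊆ K0, IsClosed K' → K' ≠ K0 → Ex k K' c := by
  classical
  obtain ⟨K0, hK0, hmin⟩ := zorn_superset_nonempty {L : Set X | IsClosed L ∧ ¬ Ex k L c} (by
    intro ch hcS hc hne
    refine ⟨⋂₀ ch, ⟨isClosed_sInter fun s hs => (hcS hs).1, ?_⟩, fun s hs => sInter_subset_of_mem hs⟩
    rintro ⟨ψ, hψ⟩
    obtain ⟨U, hU, hLU, hB⟩ := N_nhd hψ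
    have : Nonempty ch := hne.to_subtype
    obtain ⟨i, hi⟩ := exists_subset_nhds_of_compactSpace (V := fun s : ch => (s : Set X)) (U := U)
      (by
        intro a b
        rcases hc.total a.2 b.2 with h1 | h1
        · exact ⟨a, subset_rfl, h1⟩
        · exact ⟨b, h1, subset_rfl⟩)
      (fun s => (hcS s.2).1)
      (by
        intro x hx
        apply hU.mem_nhds
        apply hLU
        rw [mem_sInter]
        intro t ht
        exact mem_iInter.mp hx ⟨t, ht⟩)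
    exact (hcS i.2).2 ⟨ψ, N_mono hi hB⟩) K ⟨hK, h⟩
  refine ⟨K0, hK0, hmin.prop.1, hmin.prop.2, ?_⟩
  intro K' hK' hc' hne
  by_contra hex
  exact hne (subset_antisymm hK' (hmin.2 ⟨hc', hex⟩ hK'))

variable (R)

/-- the cohomology of closed subsets of `A` vanishes above degree `m` -/
def HA (m : ℕ) (A : Set X) : Prop :=
  ∀ A' ⊆ A, IsClosed A' → ∀ k, m ≤ k → ∀ c : Sing X (k + 1) → R,
    dl R (k + 1) c ∈ N R (k + 1 + 1) A' → Ex k A' c

/-- cohomological dimension at most `m - 1` -/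
def Dm : ℕ → Set X → Prop
  | 0, A => A = ∅
  | m + 1, A => HA R m A

variable {R}

theorem Dm_mono {m : ℕ} {A B : Set X} (h : Dm R m B) (hA : A ⊆ B) : Dm R m A := by
  cases m with
  | zero =>
    have h' : B = ∅ := h
    exact subset_empty_iff.1 (h' ▸ hA)
  | succ m => exact fun A' hA' => h A' (hA'.trans hA)

theorem HA_mono {m : ℕ} {A B : Set X} (h : HA R m B) (hA : A ⊆ B) : HA R m A :=
  fun A' hA' => h A' (hA'.trans hA)

theorem good_cut [CompactSpace X] [T2Space X] {m : ℕ} {K : Set X}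
    (hpt : ∀ x ∈ K, HA R 0 {x})
    (hcut : ∀ x ∈ K, ∀ y ∈ K, x ≠ y → ∃ A B : Set X, IsClosed A ∧ IsClosed B ∧ K ⊆ A ∪ B ∧
      x ∉ B ∧ y ∉ A ∧ Dm R m (K ∩ A ∩ B)) : HA R m K := by
  intro K' hK' hc k hk c hφ
  by_contra hne
  obtain ⟨K0, hK0, hc0, hn0, hmin⟩ := exists_min hc hne
  have hne0 : K0.Nonempty := by
    rw [nonempty_iff_ne_empty]
    rintro rfl
    exact hn0 ⟨0, N_empty _ _⟩
  obtain ⟨x, hx⟩ := hne0
  by_cases h1 : K0 = {x}
  · apply hn0
    rw [h1]
    refine hpt x (hK' (hK0 hx)) _ subset_rfl isClosed_singleton k (Nat.zero_le _) c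
      (N_mono ?_ hφ)
    rw [singleton_subset_iff]
    exact hK0 hx
  · have h2 : ∃ y ∈ K0, x ≠ y := by
      by_contra hcon
      push Not at hcon
      apply h1
      apply Subset.antisymm
      · intro y hy
        exact (hcon y hy).symm
      · rw [singleton_subset_iff]
        exact hx
    obtain ⟨y, hy, hxy⟩ := h2
    obtain ⟨A, B, hA, hB, hAB, hxB, hyA, hG⟩ :=
      hcut x (hK' (hK0 hx)) y (hK' (hK0 hy)) hxy
    have e : K0 = (K0 ∩ A) ∪ (K0 ∩ B) := by
      rw [← inter_union_distrib_left, inter_eq_left.2 ((hK0.trans hK').trans hAB)]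
    have hsub : (K0 ∩ A) ∩ (K0 ∩ B) ⊆ K ∩ A ∩ B :=
      fun z hz => ⟨⟨hK' (hK0 hz.1.1), hz.1.2⟩, hz.2.2⟩
    apply hn0
    rw [e]
    apply cut (hc0.inter hA) (hc0.inter hB)
    · intro θ hθ
      cases m with
      | zero =>
        have h3 : K ∩ A ∩ B = ∅ := hG
        have h4 : (K0 ∩ A) ∩ (K0 ∩ B) = ∅ := subset_empty_iff.1 (h3 ▸ hsub)
        refine ⟨0, map_zero _, ?_⟩
        rw [h4]
        exact N_empty _ _
      | succ m =>
        obtain ⟨k', rfl⟩ : ∃ k', k = k' + 1 := ⟨k - 1, by omega⟩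
        obtain ⟨e', he'⟩ := hG _ hsub ((hc0.inter hA).inter (hc0.inter hB)) k' (by omega) θ hθ
        exact ⟨dl R k' e', dl_dl R k' e', he'⟩
    · refine hmin _ inter_subset_left (hc0.inter hA) ?_
      intro h
      have : y ∈ K0 ∩ A := by rw [h]; exact hy
      exact hyA this.2
    · refine hmin _ inter_subset_left (hc0.inter hB) ?_
      intro h
      have : x ∈ K0 ∩ B := by rw [h]; exact hx
      exact hxB this.2

/-! ### small simplices -/

/-- locally zero cocycles are coboundaries -/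
theorem small_exact (p : ℕ) (b : Sing X (p + 1) → R) (hb : b ∈ N R (p + 1) univ)
    (h : dl R (p + 1) b = 0) : ∃ b' : Sing X p → R, b = dl R p b' := by
  classical
  set CC' : Set (Set X) := {U | IsOpen U ∧ ∀ s : Sing X (p + 1), range s ⊆ U → b s = 0} with hCC
  have hopen : ∀ C ∈ CC', IsOpen C := fun C hC => hC.1
  have hcov : ∀ x : X, ∃ C ∈ CC', x ∈ C := by
    intro x
    obtain ⟨U, hU, hxU, h1⟩ := hb x (mem_univ x)
    exact ⟨U, ⟨hU, h1⟩, hxU⟩
  refine ⟨fun s => evc b (DD CC' p (Finsupp.single s 1)), ?_⟩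
  funext σ
  have h1 : Finsupp.linearCombination ℤ (fun τ : Sing X p =>
      evc b (DD CC' p (Finsupp.single τ 1))) = (evc b).comp (DD CC' p) := by
    apply Finsupp.lhom_ext'
    intro τ
    apply LinearMap.ext_ring
    simp only [LinearMap.comp_apply, Finsupp.lsingle_apply, Finsupp.linearCombination_single,
      one_smul]
  have h2 : b σ = evc b (rho CC' (p + 1) (Finsupp.single σ 1)) +
      evc b (sbd X (p + 1) (DD CC' (p + 1) (Finsupp.single σ 1))) +
      evc b (DD CC' p (sbd X p (Finsupp.single σ 1))) := by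
    rw [rho_succ, map_sub, map_sub, evc_single]
    ring
  have h3 : evc b (sbd X (p + 1) (DD CC' (p + 1) (Finsupp.single σ 1))) = 0 := by
    rw [← ev_altd]
    have h4 : altd R (sface (X := X)) (p + 1) b = 0 := h
    rw [h4]
    simp
  have h4 : evc b (rho CC' (p + 1) (Finsupp.single σ 1)) = 0 := by
    have h5 := evc_congr (smallSet CC' (p + 1)) b 0 (by
        rintro τ ⟨C, hC, hτ⟩
        exact hC.2 τ hτ) _ (rho_small CC' hopen hcov (p + 1) (Finsupp.single σ 1))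
    refine h5.trans ?_
    simp [evc]
  rw [h2, h3, h4, zero_add, zero_add]
  have h6 := altd_eq_ev (k := R) (sface (X := X)) p
    (fun τ : Sing X p => evc b (DD CC' p (Finsupp.single τ 1))) σ
  rw [h1, LinearMap.comp_apply] at h6
  exact h6.symm

/-- vanishing above `m` -/
theorem exact_of_HA {m : ℕ} (h : HA R m (univ : Set X)) (k : ℕ) (hk : m ≤ k)
    (c : Sing X (k + 1) → R) (hc : dl R (k + 1) c = 0) : ∃ b : Sing X k → R, dl R k b = c := by
  obtain ⟨b, hb⟩ := h univ subset_rfl isClosed_univ k hk c (by rw [hc]; exact zero_mem _)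
  obtain ⟨b', hb'⟩ := small_exact k _ hb (by rw [map_sub, hc, dl_dl, sub_zero])
  refine ⟨b + b', ?_⟩
  rw [map_add, ← hb']
  abel

end Pool.Agent.P8H87.ZE
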