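import Pool.Agent.P8H87.ZE.VanA
import Pool.Agent.Helper158.PD.Rel

/-!
# Project ZE, package VAN: points and boundaries of boxes
-/

set_option autoImplicit false

namespace Pool.Agent.P8H87.ZE

open Set Topology
open Pool.Agent.Helper922.HB.Sc
open Pool.Agent.Helper158.PD (BX BX_compact BX_open BX_mono OB OB_isOpen exists_box jc_cone
  jc_cone_range jc_face0 jc_face_succ)

variable {X : Type} [TopologicalSpace X] {R : Type} [CommRing R]

/-- the cohomology of a point with a chart vanishes in positive degrees -/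
theorem HA_pt {n : ℕ} (e : OpenPartialHomeomorph X (Fin n → ℝ)) {x : X} (hx : x ∈ e.source) :
    HA R 0 {x} := by
  classical
  intro A' hA' _ k _ c hc
  rcases subset_singleton_iff_eq.1 hA' with h0 | h0
  · rw [h0]
    exact ⟨0, N_empty _ _⟩
  subst h0
  obtain ⟨U, hU, hxU, hcU⟩ := hc x (mem_singleton x)
  obtain ⟨l, u, _, ht, hxB, hBU⟩ := exists_box e hx hU hxU
    (l := fun i => e x i - 1) (u := fun i => e x i + 1)
    (fun i => ⟨by simp, by simp⟩)
  have hOB : OB l u ⊆ Icc l u := fun y hy => ⟨fun i => (hy i).1.le, fun i => (hy i).2.le⟩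
  have hOt : OB l u ⊆ e.target := hOB.trans ht
  have hconv : Convex ℝ (OB l u) := by
    have h1 : OB l u = Set.pi univ (fun i => Ioo (l i) (u i)) := by
      ext y
      constructor
      · intro h i _
        exact h i
      · intro h i
        exact h i (mem_univ i)
    rw [h1]
    exact convex_pi fun i _ => convex_Ioo _ _
  have hy : e x ∈ OB l u := hxB.2
  refine ⟨fun τ => if hs : range τ ⊆ BX e (OB l u) then c (jc_cone e hconv hOt hy τ hs) else 0, ?_⟩
  intro z hz
  rw [mem_singleton_iff] at hz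
  subst hz
  refine ⟨BX e (OB l u), BX_open e (OB_isOpen l u), hxB, fun σ hσ => ?_⟩
  have h1 := hcU (jc_cone e hconv hOt hy σ hσ)
    (((jc_cone_range e hconv hOt hy σ hσ).trans (BX_mono e hOB)).trans hBU)
  rw [altd_apply, Fin.sum_univ_succ] at h1
  rw [Fin.val_zero, pow_zero, one_mul, jc_face0] at h1
  rw [Pi.sub_apply, altd_apply]
  have h2 : ∀ i : Fin (k + 2), (-1 : R) ^ ((i.succ : Fin (k + 3)) : ℕ) *
      c (sface (k + 1) i.succ (jc_cone e hconv hOt hy σ hσ)) =
      -((-1 : R) ^ (i : ℕ) * (if hs : range (sface k i σ) ⊆ BX e (OB l u) then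
        c (jc_cone e hconv hOt hy (sface k i σ) hs) else 0)) := by
    intro i
    have hface : range (sface k i σ) ⊆ BX e (OB l u) := (rng_sface k i σ).trans hσ
    rw [dif_pos hface, jc_face_succ e hconv hOt hy σ hσ i hface, Fin.val_succ, pow_succ]
    ring
  rw [Finset.sum_congr rfl (fun i _ => h2 i), Finset.sum_neg_distrib] at h1
  rw [sub_eq_add_neg]
  exact h1

/-! ### the boundary of a box -/

/-- boundary of the face of the box `[l, u]` on which the coordinates outside `I` are given by `w` -/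
def Bb {n : ℕ} (e : OpenPartialHomeomorph X (Fin n → ℝ)) (l u : Fin n → ℝ) (I : Finset (Fin n))
    (w : Fin n → ℝ) : Set X :=
  {z | z ∈ BX e (Icc l u) ∧ (∀ i, i ∉ I → e z i = w i) ∧ ∃ i ∈ I, e z i = l i ∨ e z i = u i}

theorem coord_closed [T2Space X] {n : ℕ} (e : OpenPartialHomeomorph X (Fin n → ℝ))
    {l u : Fin n → ℝ} (ht : Icc l u ⊆ e.target) (S : Set (Fin n → ℝ)) (hS : IsClosed S) :
    IsClosed (BX e (Icc l u ∩ S)) :=
  (BX_compact e (isCompact_Icc.inter_right hS) (inter_subset_left.trans ht)).isClosed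

theorem Dm_Bb [CompactSpace X] [T2Space X] {n : ℕ} (e : OpenPartialHomeomorph X (Fin n → ℝ))
    {l u : Fin n → ℝ} (ht : Icc l u ⊆ e.target) (m : ℕ) :
    ∀ (I : Finset (Fin n)) (w : Fin n → ℝ), I.card = m → Dm R m (Bb e l u I w) := by
  classical
  induction m with
  | zero =>
    intro I w hI
    have h0 : I = ∅ := Finset.card_eq_zero.1 hI
    subst h0
    show Bb e l u ∅ w = ∅
    rw [eq_empty_iff_forall_notMem]
    rintro z ⟨_, _, i, hi, _⟩
    exact absurd hi (Finset.notMem_empty i)
  | succ m ih =>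
    intro I w hI
    show HA R m (Bb e l u I w)
    have key : ∀ x ∈ Bb e l u I w, ∀ y ∈ Bb e l u I w, ∀ i, e x i < e y i →
        ∃ A B : Set X, IsClosed A ∧ IsClosed B ∧ Bb e l u I w ⊆ A ∪ B ∧
          x ∉ B ∧ y ∉ A ∧ Dm R m (Bb e l u I w ∩ A ∩ B) := by
      intro x hx y hy i hlt
      have hiI : i ∈ I := by
        by_contra hn
        rw [hx.2.1 i hn, hy.2.1 i hn] at hlt
        exact lt_irrefl _ hlt
      obtain ⟨t, ht1, ht2⟩ := exists_between hlt
      have hc1 : IsClosed {v : Fin n → ℝ | v i ≤ t} := isClosed_le (continuous_apply i) continuous_const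
      have hc2 : IsClosed {v : Fin n → ℝ | t ≤ v i} := isClosed_le continuous_const (continuous_apply i)
      refine ⟨BX e (Icc l u ∩ {v | v i ≤ t}), BX e (Icc l u ∩ {v | t ≤ v i}),
        coord_closed e ht _ hc1, coord_closed e ht _ hc2, ?_, ?_, ?_, ?_⟩
      · intro z hz
        rcases le_total (e z i) t with h | h
        · exact Or.inl ⟨hz.1.1, hz.1.2, h⟩
        · exact Or.inr ⟨hz.1.1, hz.1.2, h⟩
      · intro h
        exact absurd (show t ≤ e x i from h.2.2) (not_le.2 ht1)
      · intro h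
        exact absurd (show e y i ≤ t from h.2.2) (not_le.2 ht2)
      · refine Dm_mono (ih (I.erase i) (Function.update w i t) ?_) ?_
        · rw [Finset.card_erase_of_mem hiI, hI]
          rfl
        · rintro z ⟨⟨hz, hz1⟩, hz2⟩
          have hzt : e z i = t := le_antisymm hz1.2.2 hz2.2.2
          refine ⟨hz.1, ?_, ?_⟩
          · intro j hj
            by_cases hji : j = i
            · subst hji
              rw [Function.update_self]
              exact hzt
            · rw [Function.update_of_ne hji]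
              refine hz.2.1 j (fun hjI => hj (Finset.mem_erase.2 ⟨hji, hjI⟩))
          · obtain ⟨j, hj, hj2⟩ := hz.2.2
            refine ⟨j, Finset.mem_erase.2 ⟨?_, hj⟩, hj2⟩
            rintro rfl
            have hlx : l j ≤ e x j := hx.1.2.1 j
            have huy : e y j ≤ u j := hy.1.2.2 j
            rcases hj2 with h | h
            · rw [hzt] at h
              linarith
            · rw [hzt] at h
              linarith
    refine good_cut (fun x hx => HA_pt e hx.1.1) ?_
    intro x hx y hy hxy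
    have hex : ∃ i, e x i ≠ e y i := by
      by_contra hcon
      push Not at hcon
      exact hxy (e.injOn hx.1.1 hy.1.1 (funext hcon))
    obtain ⟨i, hne⟩ := hex
    rcases lt_or_gt_of_ne hne with hlt | hlt
    · exact key x hx y hy i hlt
    · obtain ⟨A, B, h1, h2, h3, h4, h5, h6⟩ := key y hy x hx i hlt
      refine ⟨B, A, h2, h1, ?_, h5, h4, ?_⟩
      · rwa [union_comm]
      · have e1 : Bb e l u I w ∩ B ∩ A = Bb e l u I w ∩ A ∩ B := by
          ext z
          constructor
          · rintro ⟨⟨a, b⟩, c⟩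
            exact ⟨⟨a, c⟩, b⟩
          · rintro ⟨⟨a, b⟩, c⟩
            exact ⟨⟨a, c⟩, b⟩
        rw [e1]
        exact h6

/-- compact locally euclidean spaces -/
theorem HA_univ [CompactSpace X] [T2Space X] {n : ℕ}
    (hch : ∀ x : X, ∃ e : OpenPartialHomeomorph X (Fin n → ℝ), x ∈ e.source) :
    HA R n (univ : Set X) := by
  classical
  refine good_cut (fun x _ => ?_) ?_
  · obtain ⟨e, hx⟩ := hch x
    exact HA_pt e hx
  intro x _ y _ hxy
  obtain ⟨e, hx⟩ := hch x
  obtain ⟨l, u, _, ht, hxB, hBU⟩ := exists_box e hx (isOpen_compl_singleton (x := y))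
    (show x ∈ ({y} : Set X)ᶜ from hxy)
    (l := fun i => e x i - 1) (u := fun i => e x i + 1)
    (fun i => ⟨by simp, by simp⟩)
  refine ⟨BX e (Icc l u), (BX e (OB l u))ᶜ, (BX_compact e isCompact_Icc ht).isClosed,
    (BX_open e (OB_isOpen l u)).isClosed_compl, ?_, ?_, ?_, ?_⟩
  · intro z _
    by_cases hz : z ∈ BX e (OB l u)
    · have hsub : OB l u ⊆ Icc l u := fun v hv => ⟨fun i => (hv i).1.le, fun i => (hv i).2.le⟩
      exact Or.inl (BX_mono e hsub hz)
    · exact Or.inr hz
  · intro h
    exact h hxB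
  · intro h
    exact (hBU h) rfl
  · refine Dm_mono (Dm_Bb e ht n Finset.univ (fun _ => 0) (by simp)) ?_
    rintro z ⟨⟨_, hz1⟩, hz2⟩
    refine ⟨hz1, fun i hi => absurd (Finset.mem_univ i) hi, ?_⟩
    by_contra hcon
    push Not at hcon
    apply hz2
    refine ⟨hz1.1, fun i => ?_⟩
    obtain ⟨h1, h2⟩ := hcon i (Finset.mem_univ i)
    exact ⟨lt_of_le_of_ne (hz1.2.1 i) (Ne.symm h1), lt_of_le_of_ne (hz1.2.2 i) h2⟩

end Pool.Agent.P8H87.ZE
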